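import Pool.Agent.W716.FV.StmA

/-!
# Project FV: Gaussian integration by parts for Lipschitz functions
-/

set_option autoImplicit false

open MeasureTheory Filter Topology

namespace Pool.Agent.W762.FV

open Pool.Agent.W716.FV

theorem dom (a b c d r : ℝ) (ha : 0 ≤ a) (hb : 0 ≤ b) (hc : 0 ≤ c) (hd : 0 ≤ d) :
    (a + b * r) * (c * r + d) * Real.exp (-r ^ 2 / 4) ≤
      (a * d + 9 * (a * c + b * d) + 8 * (b * c)) * Real.exp (-r ^ 2 / 8) := by
  have e1 : Real.exp (-r ^ 2 / 8) = Real.exp (r ^ 2 / 8) * Real.exp (-r ^ 2 / 4) := by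
    rw [← Real.exp_add]
    ring_nf
  rw [e1, ← mul_assoc]
  refine mul_le_mul_of_nonneg_right ?_ (Real.exp_pos _).le
  set e := Real.exp (r ^ 2 / 8) with he
  have h1 : 1 ≤ e := Real.one_le_exp (by positivity)
  have h2 : r ^ 2 ≤ 8 * e := by
    have := Real.add_one_le_exp (r ^ 2 / 8)
    linarith
  have h3 : r ≤ 9 * e := by nlinarith [sq_nonneg (r - 1)]
  have h4 : (a + b * r) * (c * r + d) = a * d + (a * c + b * d) * r + b * c * r ^ 2 := by ring
  have g1 : a * d ≤ a * d * e := by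
    have : 0 ≤ a * d := by positivity
    nlinarith
  have g2 : (a * c + b * d) * r ≤ (a * c + b * d) * (9 * e) :=
    mul_le_mul_of_nonneg_left h3 (by positivity)
  have g3 : b * c * r ^ 2 ≤ b * c * (8 * e) := mul_le_mul_of_nonneg_left h2 (by positivity)
  rw [h4]
  linarith

theorem int_gauss (n : ℕ) : Integrable (fun x : E n => Real.exp (-‖x‖ ^ 2 / 8)) := by
  have h := (GaussianFourier.integrable_cexp_neg_mul_sq_norm_add (V := E n) (b := (1 / 8 : ℂ))
    (by norm_num) 0 0).norm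
  refine h.congr (Filter.Eventually.of_forall fun x => ?_)
  simp only [inner_zero_left, Complex.ofReal_zero, mul_zero, add_zero]
  rw [Complex.norm_exp]
  congr 1
  have e : (-(1 / 8 : ℂ) * (‖x‖ : ℂ) ^ 2) = ((-‖x‖ ^ 2 / 8 : ℝ) : ℂ) := by
    push_cast
    ring
  rw [e, Complex.ofReal_re]

/-- the constant in the density -/
noncomputable def cc (n : ℕ) : ℝ := (√(2 * Real.pi))⁻¹ ^ n

theorem cc_pos (n : ℕ) : 0 < cc n := by
  unfold cc
  positivity

theorem gd_eq (n : ℕ) (x : E n) : gd n x = cc n * Real.exp (-‖x‖ ^ 2 / 2) := rfl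

theorem gd_nonneg (n : ℕ) (x : E n) : 0 ≤ gd n x := by
  rw [gd_eq]
  exact mul_nonneg (cc_pos n).le (Real.exp_pos _).le

theorem gd_cont (n : ℕ) : Continuous (gd n) := by
  have : gd n = fun x => cc n * Real.exp (-‖x‖ ^ 2 / 2) := rfl
  rw [this]
  fun_prop

theorem gd_shift {n : ℕ} (x v : E n) {t : ℝ} (ht : |t| ≤ 1) :
    gd n (x - t • v) ≤ cc n * Real.exp (‖v‖ ^ 2 / 2) * Real.exp (-‖x‖ ^ 2 / 4) := by
  rw [gd_eq, mul_assoc, ← Real.exp_add]
  refine mul_le_mul_of_nonneg_left (Real.exp_le_exp.2 ?_) (cc_pos n).le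
  have h1 : ‖x‖ ≤ ‖x - t • v‖ + ‖v‖ := by
    calc ‖x‖ = ‖(x - t • v) + t • v‖ := by rw [sub_add_cancel]
      _ ≤ ‖x - t • v‖ + ‖t • v‖ := norm_add_le _ _
      _ ≤ ‖x - t • v‖ + ‖v‖ := by
        rw [norm_smul, Real.norm_eq_abs]
        have := mul_le_mul_of_nonneg_right ht (norm_nonneg v)
        linarith
  have h2 : ‖x‖ ^ 2 ≤ (‖x - t • v‖ + ‖v‖) ^ 2 := pow_le_pow_left₀ (norm_nonneg _) h1 2
  nlinarith [sq_nonneg (‖x - t • v‖ - ‖v‖)]

theorem norm_shift {n : ℕ} (x v : E n) (t : ℝ) :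
    ‖x - t • v‖ ^ 2 = ‖x‖ ^ 2 - 2 * t * inner ℝ x v + t ^ 2 * ‖v‖ ^ 2 := by
  rw [norm_sub_sq_real, inner_smul_right, norm_smul, mul_pow, Real.norm_eq_abs, sq_abs]
  ring

theorem gd_deriv {n : ℕ} (x v : E n) (t : ℝ) :
    HasDerivAt (fun t : ℝ => gd n (x - t • v))
      ((inner ℝ x v - t * ‖v‖ ^ 2) * gd n (x - t • v)) t := by
  have e : (fun t : ℝ => gd n (x - t • v)) = fun t : ℝ =>
      cc n * Real.exp (-(‖x‖ ^ 2 - 2 * t * inner ℝ x v + t ^ 2 * ‖v‖ ^ 2) / 2) := by
    funext t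
    rw [gd_eq, norm_shift]
  have h1 : HasDerivAt (fun t : ℝ => -(‖x‖ ^ 2 - 2 * t * inner ℝ x v + t ^ 2 * ‖v‖ ^ 2) / 2)
      (inner ℝ x v - t * ‖v‖ ^ 2) t := by
    have h := ((((((hasDerivAt_id t).const_mul 2).mul_const (inner ℝ x v)).const_sub
      (‖x‖ ^ 2)).add (((hasDerivAt_id t).pow 2).mul_const (‖v‖ ^ 2))).neg).div_const 2
    refine h.congr_deriv ?_
    simp
    ring
  rw [e]
  have h2 := h1.exp.const_mul (cc n)
  refine h2.congr_deriv ?_
  rw [gd_eq, norm_shift]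
  ring

theorem main : GaussIBP := by
  intro n F L hL v
  set b : ℝ := max L 0 with hb
  have hb0 : 0 ≤ b := le_max_right _ _
  have hlip : LipschitzWith (Real.toNNReal L) F := LipschitzWith.of_dist_le' fun x y => by
    rw [Real.dist_eq, dist_eq_norm]
    exact hL x y
  have hFc : Continuous F := hlip.continuous
  set a : ℝ := |F 0| with ha
  have ha0 : 0 ≤ a := abs_nonneg _
  have hF : ∀ x, |F x| ≤ a + b * ‖x‖ := by
    intro x
    have h1 := hL x 0
    rw [sub_zero] at h1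
    have h2 : L * ‖x‖ ≤ b * ‖x‖ := mul_le_mul_of_nonneg_right (le_max_left _ _) (norm_nonneg _)
    calc |F x| = |F 0 + (F x - F 0)| := by ring_nf
      _ ≤ |F 0| + |F x - F 0| := abs_add_le _ _
      _ ≤ _ := by linarith
  set K : ℝ := cc n * Real.exp (‖v‖ ^ 2 / 2) with hK
  have hK0 : 0 ≤ K := mul_nonneg (cc_pos n).le (Real.exp_pos _).le
  -- integrability
  have hint : ∀ t : ℝ, |t| ≤ 1 → Integrable (fun x : E n => F x * gd n (x - t • v)) := by
    intro t ht
    refine Integrable.mono' ((int_gauss n).const_mul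
      (K * (a * 1 + 9 * (a * 0 + b * 1) + 8 * (b * 0)))) ?_ (Filter.Eventually.of_forall fun x => ?_)
    · exact (hFc.mul ((gd_cont n).comp (by fun_prop))).aestronglyMeasurable
    · have h1 := dom a b 0 1 ‖x‖ ha0 hb0 le_rfl zero_le_one
      rw [Real.norm_eq_abs, abs_mul, abs_of_nonneg (gd_nonneg _ _)]
      calc |F x| * gd n (x - t • v) ≤ (a + b * ‖x‖) * (K * Real.exp (-‖x‖ ^ 2 / 4)) := by
            refine mul_le_mul (hF x) (gd_shift x v ht) (gd_nonneg _ _) (by positivity)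
        _ = K * ((a + b * ‖x‖) * (0 * ‖x‖ + 1) * Real.exp (-‖x‖ ^ 2 / 4)) := by ring
        _ ≤ K * ((a * 1 + 9 * (a * 0 + b * 1) + 8 * (b * 0)) * Real.exp (-‖x‖ ^ 2 / 8)) :=
            mul_le_mul_of_nonneg_left h1 hK0
        _ = _ := by ring
  have hgi : Integrable (gd n) := by
    refine Integrable.mono' ((int_gauss n).const_mul (cc n)) (gd_cont n).aestronglyMeasurable
      (Filter.Eventually.of_forall fun x => ?_)
    rw [Real.norm_eq_abs, abs_of_nonneg (gd_nonneg _ _), gd_eq]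
    refine mul_le_mul_of_nonneg_left (Real.exp_le_exp.2 ?_) (cc_pos n).le
    nlinarith [sq_nonneg ‖x‖]
  -- the derivative of the right side
  have hder := (hasDerivAt_integral_of_dominated_loc_of_deriv_le (μ := (volume : Measure (E n)))
    (F := fun (t : ℝ) (x : E n) => F x * gd n (x - t • v))
    (F' := fun (t : ℝ) (x : E n) => F x * ((inner ℝ x v - t * ‖v‖ ^ 2) * gd n (x - t • v)))
    (x₀ := (0 : ℝ)) (s := Metric.closedBall 0 1)
    (bound := fun x => K * (a * ‖v‖ ^ 2 + 9 * (a * ‖v‖ + b * ‖v‖ ^ 2) + 8 * (b * ‖v‖)) *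
      Real.exp (-‖x‖ ^ 2 / 8))
    (Metric.closedBall_mem_nhds _ one_pos) (Filter.Eventually.of_forall fun t =>
      (hFc.mul ((gd_cont n).comp (by fun_prop))).aestronglyMeasurable)
    (hint 0 (by simp)) (by
      refine (hFc.mul (Continuous.mul ?_ ((gd_cont n).comp (by fun_prop)))).aestronglyMeasurable
      fun_prop)
    (Filter.Eventually.of_forall fun x t ht => by
      have ht' : |t| ≤ 1 := by
        rw [Metric.mem_closedBall, Real.dist_eq, sub_zero] at ht
        exact ht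
      have h1 := dom a b ‖v‖ (‖v‖ ^ 2) ‖x‖ ha0 hb0 (norm_nonneg _) (by positivity)
      have h2 : |inner ℝ x v - t * ‖v‖ ^ 2| ≤ ‖v‖ * ‖x‖ + ‖v‖ ^ 2 := by
        calc |inner ℝ x v - t * ‖v‖ ^ 2| ≤ |inner ℝ x v| + |t * ‖v‖ ^ 2| := abs_sub _ _
          _ ≤ ‖x‖ * ‖v‖ + 1 * ‖v‖ ^ 2 := by
            refine add_le_add (abs_real_inner_le_norm x v) ?_
            rw [abs_mul, abs_of_nonneg (sq_nonneg ‖v‖)]
            exact mul_le_mul_of_nonneg_right ht' (sq_nonneg _)
          _ = _ := by ring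
      rw [Real.norm_eq_abs, abs_mul, abs_mul, abs_of_nonneg (gd_nonneg _ _)]
      calc |F x| * (|inner ℝ x v - t * ‖v‖ ^ 2| * gd n (x - t • v))
          ≤ (a + b * ‖x‖) * ((‖v‖ * ‖x‖ + ‖v‖ ^ 2) * (K * Real.exp (-‖x‖ ^ 2 / 4))) := by
            refine mul_le_mul (hF x) (mul_le_mul h2 (gd_shift x v ht') (gd_nonneg _ _)
              (by positivity)) (mul_nonneg (abs_nonneg _) (gd_nonneg _ _)) (by positivity)
        _ = K * ((a + b * ‖x‖) * (‖v‖ * ‖x‖ + ‖v‖ ^ 2) * Real.exp (-‖x‖ ^ 2 / 4)) := by ring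
        _ ≤ K * ((a * ‖v‖ ^ 2 + 9 * (a * ‖v‖ + b * ‖v‖ ^ 2) + 8 * (b * ‖v‖)) *
            Real.exp (-‖x‖ ^ 2 / 8)) := mul_le_mul_of_nonneg_left h1 hK0
        _ = _ := by ring)
    ((int_gauss n).const_mul _)
    (Filter.Eventually.of_forall fun x t _ => (gd_deriv x v t).const_mul (F x))).2
  have ht1 := hder.tendsto_slope_zero_right
  have ht2 := hlip.integral_inv_smul_sub_mul_tendsto_integral_lineDeriv_mul
    (μ := (volume : Measure (E n))) hgi v
  have heq : ∀ t : ℝ, |t| ≤ 1 →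
      ∫ x : E n, (t⁻¹ • (F (x + t • v) - F x)) * gd n x =
      t⁻¹ • ((∫ x : E n, F x * gd n (x - (0 + t) • v)) -
        ∫ x : E n, F x * gd n (x - (0 : ℝ) • v)) := by
    intro t ht
    have s1 : ∫ x : E n, F x * gd n (x - (0 + t) • v) = ∫ x : E n, F (x + t • v) * gd n x := by
      rw [← integral_add_right_eq_self (fun x : E n => F x * gd n (x - (0 + t) • v)) (t • v)]
      refine integral_congr_ae (Filter.Eventually.of_forall fun x => ?_)
      simp only [zero_add, add_sub_cancel_right]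
    have i1 : Integrable (fun x : E n => F (x + t • v) * gd n x) := by
      have h1 := (hint t ht).comp_add_right (t • v)
      refine h1.congr (Filter.Eventually.of_forall fun x => ?_)
      simp only [add_sub_cancel_right]
    have i2 : Integrable (fun x : E n => F x * gd n (x - (0 : ℝ) • v)) := hint 0 (by simp)
    rw [s1, ← integral_sub i1 i2, ← integral_smul]
    refine integral_congr_ae (Filter.Eventually.of_forall fun x => ?_)
    simp only [smul_eq_mul, zero_smul, sub_zero]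
    ring
  have hev : (fun t : ℝ => ∫ x : E n, (t⁻¹ • (F (x + t • v) - F x)) * gd n x) =ᶠ[𝓝[>] 0]
      fun t : ℝ => t⁻¹ • ((∫ x : E n, F x * gd n (x - (0 + t) • v)) -
        ∫ x : E n, F x * gd n (x - (0 : ℝ) • v)) := by
    have h1 : ∀ᶠ t : ℝ in 𝓝[>] 0, t ∈ Set.Ioo (0 : ℝ) 1 := Ioo_mem_nhdsGT one_pos
    filter_upwards [h1] with t ht
    exact heq t (by rw [abs_of_pos ht.1]; exact ht.2.le)
  have hlim := tendsto_nhds_unique (ht2.congr' hev) ht1
  -- back to the Gaussian measure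
  have hwd : ∀ f : E n → ℝ, ∫ x, f x ∂(gam n) = ∫ x, gd n x * f x := by
    intro f
    unfold gam
    rw [integral_withDensity_eq_integral_toReal_smul
      ((gd_cont n).measurable.ennreal_ofReal) (Filter.Eventually.of_forall fun x =>
        ENNReal.ofReal_lt_top)]
    refine integral_congr_ae (Filter.Eventually.of_forall fun x => ?_)
    simp only [smul_eq_mul, ENNReal.toReal_ofReal (gd_nonneg n x)]
  rw [hwd, hwd]
  have r1 : ∫ x : E n, gd n x * (F x * inner ℝ x v) =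
      ∫ x : E n, F x * ((inner ℝ x v - (0 : ℝ) * ‖v‖ ^ 2) * gd n (x - (0 : ℝ) • v)) := by
    refine integral_congr_ae (Filter.Eventually.of_forall fun x => ?_)
    simp only [zero_mul, sub_zero, zero_smul]
    ring
  have r2 : ∫ x : E n, gd n x * fderiv ℝ F x v = ∫ x : E n, lineDeriv ℝ F x v * gd n x := by
    refine integral_congr_ae ?_
    filter_upwards [hlip.ae_differentiableAt (μ := (volume : Measure (E n)))] with x hx
    rw [hx.lineDeriv_eq_fderiv]
    ring
  rw [r1, r2]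
  exact hlim.symm

end Pool.Agent.W762.FV
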